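import Pool.Agent.H94ng.Copies

/-!
The product part of the Nordhaus-Gaddum conjecture for total domination with `δ* = 4` fails for
infinitely many orders: take the (connected) complement of `k ≥ 2` disjoint copies of the bipartite
complement of the Heawood graph.
-/

set_option autoImplicit false

namespace Pool.Agent.Results.MP_4101c8_co.ProductFails

open Pool.Agent.H94ng

/-- For every `n₀` there is a connected graph `G` of order `n ≥ n₀` with
`min (δ(G), δ(complement of G)) = 4` and `γ_t(G) * γ_t(complement of G) ≥ 6 n / 7`, which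
is greater than `4 n / 5`. -/
theorem result (n₀ : ℕ) : ∃ (V : Type) (_ : Fintype V) (_ : DecidableEq V) (G : SimpleGraph V)
    (_ : DecidableRel G.Adj), n₀ ≤ Fintype.card V ∧ G.Connected ∧
      min G.minDegree Gᶜ.minDegree = 4 ∧
      6 * (Fintype.card V : ℝ) / 7 ≤ (gammaT G : ℝ) * (gammaT Gᶜ : ℝ) ∧
      4 * (Fintype.card V : ℝ) / 5 < (gammaT G : ℝ) * (gammaT Gᶜ : ℝ) := by
  obtain ⟨V, i1, i2, G, i3, h1, h2, h3, h4, h5, h6⟩ := main n₀
  have h2' : (0 : ℝ) < Fintype.card V := by exact_mod_cast h2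
  have h5' : (2 : ℝ) ≤ gammaT G := by exact_mod_cast h5
  have h6' : 3 * (Fintype.card V : ℝ) ≤ 7 * (gammaT Gᶜ : ℝ) := by exact_mod_cast h6
  have h7 : 2 * (gammaT Gᶜ : ℝ) ≤ (gammaT G : ℝ) * (gammaT Gᶜ : ℝ) :=
    mul_le_mul_of_nonneg_right h5' (Nat.cast_nonneg _)
  refine ⟨V, i1, i2, G, i3, h1, h3, h4, ?_, ?_⟩
  · linarith
  · linarith

end Pool.Agent.Results.MP_4101c8_co.ProductFails
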